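import Pool.Agent.N914.IX.Gaps
import Pool.Agent.N914.CP.Final

set_option autoImplicit false

/-!
# The gap `h` after the primes `p_i` with `i` in every residue class modulo `m`

The question asks for multiples `kn` of `n` with `p_(kn) + 2` prime, that is, for the gap `2` at
indices divisible by `n`.  Here the gap is `h` in place of `2`: for every `m`, a positive proportion
of the even numbers `h` occur as a gap `p_(i+1) - p_i = h` for infinitely many `i` in EVERY residue
class modulo `m`.  In particular (`m = lcm(1, …, n₀)`) for a positive proportion of the even numbers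
`h` there are, for every `n ≤ n₀`, infinitely many `k` for which `p_(kn) + h` is prime, and is the
next prime after `p_(kn)`; there are at least `x / (log x)^B` of them with `p_(kn) ≤ x`.

More generally, for `k`, `m`, `L` every large set `V` of natural numbers has an `L`-element subset
`W` such that all the subsets `T ⊆ W` with at most `k + 1` elements are patterns of consecutive
primes `p_i, p_(i+1), …` for indices `i` in every residue class modulo `m`, with all the primes in
a prescribed progression, simultaneously for `R` progressions and `R` scales; and every dense set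
has a positive proportion of such `L`-element subsets.

Method.  By the theorem `Pool.Agent.R493.ST.strings` of the starting library (Maynard, Tao, Ramsey)
a large set contains a large `W₁` all of whose subsets `T'` with `k + m` elements are patterns of
consecutive primes.  The colour of `T'` is a residue class modulo `m` in which the number of primes
below the pattern lies for at least a proportion `1 / m` of the occurrences; by Ramsey's theorem
the colour may be assumed to be the same for all `T'`.  If `T` is in the middle of `W₁`, it can be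
extended to a set `T'` of `k + m` elements by `i` smaller elements and `k + m - |T| - i` larger
elements, and `i = 0, 1, …, m - 1` gives the `m` residue classes for the index of the first prime
of the pattern `T`.
-/

namespace Pool.Agent.Results.MP_be93de_nt.EveryIndexClass

open Finset

/-- The `i`-th prime: `p 1 = 2`, `p 2 = 3`, `p 3 = 5`, and so on. -/
noncomputable def p (i : ℕ) : ℕ := Nat.nth Nat.Prime (i - 1)

/-- The number of the `i ≥ 1`, `i ≡ r (mod m)`, with `p_i ≤ x` and `p_(i+1) = p_i + h`. -/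
noncomputable def gapCount (m r h : ℕ) (x : ℝ) : ℕ :=
  {i : ℕ | 1 ≤ i ∧ i ≡ r [MOD m] ∧ (p i : ℝ) ≤ x ∧ p (i + 1) = p i + h}.ncard

/-- The primes between `n + min T - M` and `n + max T + M` are exactly the `n + t`, `t ∈ T`. -/
def Exact (M n : ℕ) (T : Finset ℕ) : Prop :=
  ∀ l : ℕ, (∃ t ∈ T, n + t ≤ l + M) → (∃ t ∈ T, l ≤ n + t + M) →
    (l.Prime ↔ ∃ t ∈ T, l = n + t)

/-- The number of the `n ≤ x`, `n ≡ a (mod q)`, such that the primes between `n + min T - M` and
`n + max T + M` are exactly the `n + t`, `t ∈ T`, and such that the first of them, `n + min T`, is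
`p_i` with `i ≡ r (mod m)`. (The index of a prime `l` is the number of the primes `≤ l`.) -/
noncomputable def patterns (m r q a M : ℕ) (T : Finset ℕ) (x : ℝ) : ℕ :=
  {n : ℕ | (n : ℝ) ≤ x ∧ n ≡ a [MOD q] ∧ Exact M n T ∧
    ∃ t ∈ T, (∀ u ∈ T, t ≤ u) ∧ Nat.primeCounting (n + t) ≡ r [MOD m]}.ncard

/-- All the subsets of `W` with at most `k + 1` elements are patterns of consecutive primes at
indices in every residue class modulo `m`, for all the progressions `a_ρ mod q_ρ` and all the
scales `x_ρ`. -/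
def AllClasses (k B m R M : ℕ) (q a : Fin R → ℕ) (x : Fin R → ℝ) (W : Finset ℕ) : Prop :=
  ∀ ρ, ∀ T ⊆ W, 1 ≤ T.card → T.card ≤ k + 1 → ∀ r : ℕ,
    x ρ / Real.log (x ρ) ^ B ≤ (patterns m r (q ρ) (a ρ) M T (x ρ) : ℝ)

open Classical in
/-- **Gaps and patterns of consecutive primes at indices in every residue class modulo `m`.** -/
theorem result :
    (∀ k m : ℕ, 1 ≤ m → ∃ B : ℕ,
      (∀ L R M : ℕ, ∃ K : ℕ, ∀ V : Finset ℕ, K ≤ V.card → ∀ Q : ℕ, ∃ x₀ : ℝ,
        ∀ (q a : Fin R → ℕ) (x : Fin R → ℝ),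
        (∀ ρ, 1 ≤ q ρ ∧ q ρ ≤ Q ∧ (∀ v ∈ V, (a ρ + v).Coprime (q ρ)) ∧ x₀ ≤ x ρ) →
        ∃ W ⊆ V, W.card = L ∧ AllClasses k B m R M q a x W) ∧
      ∀ (L R M : ℕ) (δ : ℝ), 0 < δ → ∃ c : ℝ, 0 < c ∧ ∃ N₀ : ℕ, ∀ N : ℕ, N₀ ≤ N →
        ∀ Q : ℕ, ∃ x₀ : ℝ, ∀ (q a : Fin R → ℕ) (x : Fin R → ℝ) (F : Finset ℕ),
        (∀ ρ, 1 ≤ q ρ ∧ q ρ ≤ Q ∧ x₀ ≤ x ρ) → F ⊆ range N → δ * N ≤ F.card →
        (∀ ρ, ∀ v ∈ F, (a ρ + v).Coprime (q ρ)) →
        c * (N : ℝ) ^ L ≤
          (((powersetCard L F).filter (fun W => AllClasses k B m R M q a x W)).card : ℝ)) ∧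
    ∀ m : ℕ, 1 ≤ m → ∃ (B : ℕ) (c : ℝ), 0 < c ∧ ∃ H₀ : ℕ, ∀ H : ℕ, H₀ ≤ H →
      (∃ x₀ : ℝ, ∀ x : ℝ, x₀ ≤ x → c * H ≤ (((Icc 1 H).filter (fun h => ∀ r : ℕ,
        x / Real.log x ^ B ≤ (gapCount m r h x : ℝ))).card : ℝ)) ∧
      c * H ≤ (((Icc 1 H).filter (fun h => ∀ r : ℕ,
        {i : ℕ | i ≡ r [MOD m] ∧ p (i + 1) = p i + h}.Infinite)).card : ℝ) := by
  refine ⟨fun k m hm => ?_, fun m hm => ?_⟩
  · obtain ⟨B, hB⟩ := Pool.Agent.N914.CP.str (k + m - 1)
    exact ⟨B + 1, fun L R M => Pool.Agent.N914.IX.index k m B hm hB L R M,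
      fun L R M δ hδ => Pool.Agent.N914.IX.denseI k m B hm hB L R M δ hδ⟩
  · obtain ⟨B, hB⟩ := Pool.Agent.N914.CP.str (1 + m - 1)
    obtain ⟨c₁, hc₁, H₁, h₁⟩ := Pool.Agent.N914.IX.gaps m B hm hB
    obtain ⟨c₂, hc₂, H₂, h₂⟩ := Pool.Agent.N914.IX.gapsInf m B hm hB
    refine ⟨B + 2, min c₁ c₂, lt_min hc₁ hc₂, max H₁ H₂, fun H hH => ⟨?_, ?_⟩⟩
    · obtain ⟨x₀, hx₀⟩ := h₁ H ((le_max_left _ _).trans hH)
      refine ⟨x₀, fun x hx => (mul_le_mul_of_nonneg_right (min_le_left _ _)
        (Nat.cast_nonneg _)).trans (hx₀ x hx)⟩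
    · exact (mul_le_mul_of_nonneg_right (min_le_right _ _)
        (Nat.cast_nonneg _)).trans (h₂ H ((le_max_right _ _).trans hH))

end Pool.Agent.Results.MP_be93de_nt.EveryIndexClass
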