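import Pool.Agent.N625.PT.X18
import Pool.Agent.Y877.SxI

/-!
# Primes `p_i + N` with `i` in arbitrary dense sets of indices, in particular `p_{j n} + N`, for almost all multiples `N` of
random integers

Nothing is used besides Mathlib in the statement: `∑ v ∈ range (b ^ k), (if P v then 0 else μ v)` is the probability that
the random integer `v < b ^ k` with the distribution `μ` does not have the property `P`.
-/

set_option autoImplicit false

open Finset

namespace Pool.Agent.Results.MP_be93de_nt.ExchangeableIndexSets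

/-- The probability, for the distribution `μ` on the words of `k` digits (the integers `v < b ^ k`), that the word begins with
the `i` digits of `u < b ^ i`. -/
noncomputable def begins (b k : ℕ) (μ : ℕ → ℝ) (i u : ℕ) : ℝ := ∑ w ∈ range (b ^ (k - i)), μ (u * b ^ (k - i) + w)

/-- `p` is a probability on the words of `k` digits in base `b`, read as integers `v < b ^ k`. There is another probability
`μ` with `p ≤ k ^ T μ` such that after every beginning `u` two different blocks `a`, `a'` of `L` digits can be exchanged: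
`p (u a w) = r p (u a' w)` for all endings `w`, with a factor `r` between `η` and `1 / η` which does not depend on `w`; and
given the beginning `u`, each of the two blocks comes next with a probability of at least `η` in the distribution `μ`.
(For `T = 0` one has `μ = p`. For the uniform distribution on a set of words `r` is `1`.) -/
structure Exchangeable (b L : ℕ) (η : ℝ) (T k : ℕ) (p : ℕ → ℝ) : Prop where
  nonneg : ∀ v, 0 ≤ p v
  sum : ∑ v ∈ range (b ^ k), p v = 1
  dominated : ∃ μ : ℕ → ℝ, (∀ v, 0 ≤ μ v) ∧ ∑ v ∈ range (b ^ k), μ v = 1 ∧ (∀ v < b ^ k, p v ≤ (k : ℝ) ^ T * μ v) ∧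
    ∀ i u : ℕ, i + L ≤ k → u < b ^ i → ∃ (a a' : ℕ) (r : ℝ), a < a' ∧ a' < b ^ L ∧ η ≤ r ∧ η * r ≤ 1 ∧
      (∀ w < b ^ (k - (i + L)), p ((b ^ L * u + a) * b ^ (k - (i + L)) + w) = r * p ((b ^ L * u + a') * b ^ (k - (i + L)) + w)) ∧
      η * begins b k μ i u ≤ begins b k μ (i + L) (b ^ L * u + a) ∧
      η * begins b k μ i u ≤ begins b k μ (i + L) (b ^ L * u + a')

/-- the `i`-th prime, `i ≥ 1` -/
noncomputable def p (i : ℕ) : ℕ := Nat.nth Nat.Prime (i - 1)

/-- the product of `1 - 1/q` over the primes `q ≤ y` -/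
noncomputable def V (y : ℕ) : ℝ := ∏ q ∈ (Icc 1 y).filter Nat.Prime, (1 - 1 / (q : ℝ))

/-- the multiple of the product of the primes `≤ y` given by the integers `h` and `c + κ v` -/
def Nv (y h : ℕ) (c κ : ℤ) (v : ℕ) : ℤ := ((primorial y * h : ℕ) : ℤ) * (c + κ * v)

/-- the indices `i ∈ K` such that `p_i + N` is prime -/
noncomputable def Good (K : Finset ℕ) (N : ℤ) : Finset ℕ := K.filter (fun i : ℕ => ((p i : ℤ) + N).toNat.Prime)

/-- the `j ≥ 1` with `j n ≤ x` such that `p_{j n} + N` is prime -/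
noncomputable def Mult (n x : ℕ) (N : ℤ) : Finset ℕ := (Icc 1 (x / n)).filter (fun j : ℕ => ((p (j * n) : ℤ) + N).toNat.Prime)

lemma begins_sum (b k : ℕ) (μ : ℕ → ℝ) (i u : ℕ) (hi : i < k) :
    ∑ a ∈ range b, begins b k μ (i + 1) (b * u + a) = begins b k μ i u := by
  unfold begins
  obtain ⟨n, hn⟩ : ∃ n, k - i = n + 1 := ⟨k - i - 1, by omega⟩
  have h1 : k - (i + 1) = n := by omega
  rw [h1, hn, pow_succ, mul_comm (b ^ n) b, Pool.Agent.N625.PT.sum_blocks b (b ^ n)]
  apply sum_congr rfl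
  intro a _
  apply sum_congr rfl
  intro w _
  congr 1
  ring

lemma flex_of {b L T k : ℕ} {η : ℝ} {p : ℕ → ℝ} (hp : Exchangeable b L η T k p) : Pool.Agent.N625.PT.Flex b L η T k p := by
  obtain ⟨h0, h1, μ, m0, m1, m2, m3⟩ := hp
  have hT : (0 : ℝ) ≤ (k : ℝ) ^ T := by positivity
  have hb0 : ∀ i u, 0 ≤ begins b k μ i u := fun i u => sum_nonneg fun w _ => m0 _
  refine ⟨h0, h1, fun i u => (k : ℝ) ^ T * begins b k μ i u, fun i u => mul_nonneg hT (hb0 i u), ?_, ?_, ?_, ?_⟩
  · intro v hv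
    refine (m2 v hv).trans (le_of_eq ?_)
    unfold begins
    simp
  · intro i hi u _
    simp only
    rw [← mul_sum, begins_sum b k μ i u hi]
  · simp only
    have : begins b k μ 0 0 = 1 := by
      unfold begins
      simpa using m1
    rw [this, mul_one]
  · intro i u hi hu
    obtain ⟨a, a', r, q1, q2, q3, q4, q5, q6, q7⟩ := m3 i u hi hu
    refine ⟨a, a', r, q1, q2, q3, q4, q5, ?_, ?_⟩
    · simp only
      calc η * ((k : ℝ) ^ T * begins b k μ i u) = (k : ℝ) ^ T * (η * begins b k μ i u) := by ring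
        _ ≤ _ := mul_le_mul_of_nonneg_left q6 hT
    · simp only
      calc η * ((k : ℝ) ^ T * begins b k μ i u) = (k : ℝ) ^ T * (η * begins b k μ i u) := by ring
        _ ≤ _ := mul_le_mul_of_nonneg_left q7 hT

lemma p_prime (n : ℕ) : (p n).Prime := Nat.prime_nth_prime _

lemma p_inj {m n : ℕ} (hm : 1 ≤ m) (hn : 1 ≤ n) (h : p m = p n) : m = n := by
  have := Nat.nth_injective Nat.infinite_setOf_prime h
  omega

/-- Let `v < b ^ k` be a random integer whose distribution `μ` has exchangeable blocks of digits, let `y` be between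
`θ log k` and `K₁ log k` (`θ > 0` is arbitrary), `M` the product of the primes `≤ y`, `|c| ≤ B b ^ k`,
`N_h = h M (c + κ v)`, `H ≤ k ^ J` and let `x` be an integer with `b ^ k ≤ x k ^ C`, `x ≤ b ^ k k ^ C`. (1) For every
family `K_0, …, K_{T-1}` of sets of at least `x / k ^ A` indices `i ≤ x` with a probability of at least `1 - ε` all but at
most `ε T H` of the pairs `(t, h)`, `t < T`, `1 ≤ h ≤ H`, have the property: if `N_h > 0`, then the number of the `i ∈ K_t`
such that `p_i + N_h` is prime differs from `E = #K_t / (V y log b ^ k)` by at most `ε E`. (2) For `R ≤ k ^ J` with a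
probability of at least `1 - ε` all but at most `ε R H` of the pairs `(n, h)`, `1 ≤ n ≤ R`, `1 ≤ h ≤ H`, have the property:
if `N_h > 0`, then the number of the `j ≤ x / n` such that `p_{j n} + N_h` is prime differs from
`E = ⌊x / n⌋ / (V y log b ^ k)` by at most `ε E`. -/
theorem result : ∀ (b L : ℕ), 2 ≤ b → 1 ≤ L → ∀ η : ℝ, 0 < η → η ≤ 1 → ∀ (T₀ : ℕ) (κ : ℤ), κ ≠ 0 →
    ∀ (B J A C K₁ : ℕ) (θ : ℝ), 0 < θ → ∀ ε : ℝ, 0 < ε → ε ≤ 1 → ∃ k₀ : ℕ, ∀ k : ℕ, k₀ ≤ k →
    ∀ μ : ℕ → ℝ, Exchangeable b L η T₀ k μ → ∀ y : ℕ, θ * Real.log k ≤ y → y ≤ K₁ * Real.log k →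
    ∀ c : ℤ, |c| ≤ B * (b : ℤ) ^ k → ∀ H : ℕ, H ≤ k ^ J →
    ∀ x : ℕ, b ^ k ≤ x * k ^ C → x ≤ b ^ k * k ^ C →
      (∀ (T : ℕ) (K : ℕ → Finset ℕ), (∀ t < T, K t ⊆ Icc 1 x ∧ (x : ℝ) ≤ (K t).card * (k : ℝ) ^ A) →
        ∑ v ∈ range (b ^ k), (if (((range T ×ˢ Icc 1 H).filter (fun z => ¬ (0 < Nv y z.2 c κ v →
            |((Good (K z.1) (Nv y z.2 c κ v)).card : ℝ) - (K z.1).card / (V y * (k * Real.log b))| ≤
              ε * ((K z.1).card / (V y * (k * Real.log b)))))).card : ℝ) ≤ ε * (T * H) then 0 else μ v) ≤ ε) ∧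
      (∀ R : ℕ, R ≤ k ^ J →
        ∑ v ∈ range (b ^ k), (if (((Icc 1 R ×ˢ Icc 1 H).filter (fun z => ¬ (0 < Nv y z.2 c κ v →
            |((Mult z.1 x (Nv y z.2 c κ v)).card : ℝ) - (x / z.1 : ℕ) / (V y * (k * Real.log b))| ≤
              ε * ((x / z.1 : ℕ) / (V y * (k * Real.log b)))))).card : ℝ) ≤ ε * (R * H) then 0 else μ v) ≤ ε) := by
  classical
  intro b L hb hL η hη0 hη1 T₀ κ hκ B J A C K₁ θ hθ ε hε hε1
  have hε2 : ε ^ 2 ≤ ε := by nlinarith
  obtain ⟨A₁, hA₁⟩ : ∃ A₁, A₁ = A + J + 1 := ⟨_, rfl⟩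
  obtain ⟨k₀, h0⟩ := Pool.Agent.N625.PT.law2P b L hb hL η hη0 hη1 κ hκ T₀ B J
    (A₁ + 4) (C + 4) K₁ θ hθ (ε ^ 2) (by positivity) (hε2.trans hε1)
  obtain ⟨k₁, h1⟩ := Pool.Agent.N625.PT.X_large b C hb
  obtain ⟨k₂, h2⟩ := Pool.Agent.N625.PT.log_X b C hb
  obtain ⟨k₃, h3⟩ := Pool.Agent.N625.PT.pow_le_pow_digits b hb (J + C)
  obtain ⟨n4, hn4⟩ := Pool.Agent.Y877.SX.nth_le_log
  refine ⟨max (max k₀ k₁) (max (max k₂ k₃) (max 5 n4)), fun k hk μ hμ y hy1 hy2 c hc H hH x hx1 hx2 => ?_⟩
  have b4 : 5 ≤ k := by omega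
  have hkr : (5 : ℝ) ≤ k := by exact_mod_cast b4
  have hk0 : (0 : ℝ) < k := by linarith
  have hkx := h1 k (by omega) x hx1
  have hlx := h2 k (by omega) x hx2
  have hk3 := h3 k (by omega)
  have hln : 0 ≤ Real.log x := Real.log_natCast_nonneg x
  have hx0 : (0 : ℝ) ≤ x := Nat.cast_nonneg x
  have hbigx : k ^ J ≤ x := by
    have : k ^ J * k ^ C ≤ x * k ^ C := by
      rw [← pow_add]
      exact hk3.trans hx1
    exact Nat.le_of_mul_le_mul_right this (by positivity)
  have hX1 : b ^ k ≤ (x * k ^ 4) * k ^ (C + 4) := by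
    refine hx1.trans ?_
    rw [mul_assoc, ← pow_add]
    exact Nat.mul_le_mul_left _ (Nat.pow_le_pow_right (by omega) (by omega))
  have hX2 : x * k ^ 4 ≤ b ^ k * k ^ (C + 4) := by
    calc x * k ^ 4 ≤ (b ^ k * k ^ C) * k ^ 4 := Nat.mul_le_mul_right _ hx2
      _ = _ := by rw [mul_assoc, ← pow_add]
  have hp : ∀ n : ℕ, n ≤ x → p n ≤ x * k ^ 4 := by
    intro n hn
    have g1 : ((p n : ℕ) : ℝ) ≤ x * (k : ℝ) ^ 4 := by
      refine (hn4 x (by omega) (n - 1) (by omega)).trans ?_
      apply mul_le_mul_of_nonneg_left _ hx0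
      calc Real.log x ^ 2 ≤ ((k : ℝ) ^ 2) ^ 2 := pow_le_pow_left₀ hln hlx _
        _ = (k : ℝ) ^ 4 := by rw [← pow_mul]
    exact_mod_cast g1
  have hVy : 0 < V y := Pool.Agent.H373R2.T7.Vz_pos y
  have hlogb : 0 ≤ Real.log b := Real.log_natCast_nonneg b
  have main : ∀ (T : ℕ) (K : ℕ → Finset ℕ), (∀ t < T, K t ⊆ Icc 1 x ∧ (x : ℝ) ≤ (K t).card * (k : ℝ) ^ A₁) →
        ∑ v ∈ range (b ^ k), (if (((range T ×ˢ Icc 1 H).filter (fun z => ¬ (0 < Nv y z.2 c κ v →
            |((Good (K z.1) (Nv y z.2 c κ v)).card : ℝ) - (K z.1).card / (V y * (k * Real.log b))| ≤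
              ε * ((K z.1).card / (V y * (k * Real.log b)))))).card : ℝ) ≤ ε * (T * H) then 0 else μ v) ≤ ε := by
    intro T K hK
    obtain ⟨Bd, hBd⟩ : ∃ Bd : ℕ × ℕ → ℕ → Prop, ∀ z v, Bd z v ↔ (0 < Nv y z.2 c κ v ∧
      ε * ((K z.1).card / (V y * (k * Real.log b))) <
      |((Good (K z.1) (Nv y z.2 c κ v)).card : ℝ) - (K z.1).card / (V y * (k * Real.log b))|) := ⟨_, fun _ _ => Iff.rfl⟩
    have key : ∀ z ∈ range T ×ˢ Icc 1 H, ∑ v ∈ range (b ^ k), (if Bd z v then μ v else 0) ≤ ε ^ 2 := by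
      intro z hz
      obtain ⟨t, h⟩ := z
      rw [mem_product, mem_range, mem_Icc] at hz
      obtain ⟨htT, hh1, hhH⟩ := hz
      simp only at htT hh1 hhH
      obtain ⟨hKx, hKA⟩ := hK t htT
      have hS1 : ∀ n ∈ K t, 1 ≤ n ∧ n ≤ x := fun n hn => mem_Icc.1 (hKx hn)
      obtain ⟨S', hS'⟩ : ∃ S', S' = (K t).image p := ⟨_, rfl⟩
      have hinj : Set.InjOn p (K t) := fun m hm n hn hmn =>
        p_inj (hS1 m (by exact_mod_cast hm)).1 (hS1 n (by exact_mod_cast hn)).1 hmn
      have hcard : S'.card = (K t).card := by rw [hS']; exact card_image_of_injOn hinj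
      have h5 := h0 k (by omega) μ (flex_of hμ) y hy1 hy2 c hc h hh1 (hhH.trans hH) (x * k ^ 4) hX1 hX2 S' (by
          intro s hs
          rw [hS', mem_image] at hs
          obtain ⟨n, hn, rfl⟩ := hs
          rw [mem_Icc]
          exact ⟨(p_prime n).pos, hp n (hS1 n hn).2⟩) (by
          intro s hs
          rw [hS', mem_image] at hs
          obtain ⟨n, hn, rfl⟩ := hs
          exact p_prime n) (by
          rw [hcard]
          push_cast
          calc (x : ℝ) * (k : ℝ) ^ 4 ≤ ((K t).card * (k : ℝ) ^ A₁) * (k : ℝ) ^ 4 :=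
                mul_le_mul_of_nonneg_right hKA (by positivity)
            _ = _ := by rw [mul_assoc, ← pow_add]) 1 (Or.inl rfl)
      refine le_trans (sum_le_sum fun v _ => ?_) h5
      have hpv := hμ.nonneg v
      by_cases hq : Bd (t, h) v
      · rw [if_pos hq, if_pos]
        rw [hBd] at hq
        simp only at hq
        obtain ⟨q1, q2⟩ := hq
        have hNv : Pool.Agent.N625.PT.Nm y h c κ v = Nv y h c κ v := rfl
        refine ⟨fun s hs => ?_, ?_⟩
        · rw [hNv]
          have : (0 : ℤ) ≤ (s : ℤ) := Int.natCast_nonneg s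
          linarith
        · have e1 : (S'.filter (fun s : ℕ => (Pool.Agent.N625.PT.Nm y h c κ v + 1 * (s : ℕ)).toNat.Prime)).card =
              (Good (K t) (Nv y h c κ v)).card := by
            rw [hS', filter_image, card_image_of_injOn (hinj.mono (by
              intro i hi
              rw [mem_coe, mem_filter] at hi
              exact_mod_cast hi.1))]
            unfold Good
            congr 1
            apply filter_congr
            intro n _
            rw [hNv]
            have e : Nv y h c κ v + 1 * ((p n : ℕ) : ℤ) = (p n : ℤ) + Nv y h c κ v := by ring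
            rw [e]
          rw [e1, hcard]
          refine lt_of_le_of_lt ?_ q2
          apply mul_le_mul_of_nonneg_right hε2
          exact div_nonneg (Nat.cast_nonneg _) (mul_nonneg hVy.le (mul_nonneg hk0.le hlogb))
      · rw [if_neg hq]
        split_ifs
        · exact hpv
        · exact le_rfl
    -- Markov
    obtain ⟨cnt, hcnt⟩ : ∃ cnt : ℕ → ℝ, ∀ v, cnt v = (((range T ×ˢ Icc 1 H).filter (fun z => Bd z v)).card : ℝ) := ⟨_, fun _ => rfl⟩
    have hcnt0 : ∀ v, 0 ≤ cnt v := fun v => by rw [hcnt]; exact Nat.cast_nonneg _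
    have hset : ∀ v, (((range T ×ˢ Icc 1 H).filter (fun z => ¬ (0 < Nv y z.2 c κ v →
            |((Good (K z.1) (Nv y z.2 c κ v)).card : ℝ) - (K z.1).card / (V y * (k * Real.log b))| ≤
              ε * ((K z.1).card / (V y * (k * Real.log b)))))).card : ℝ) = cnt v := by
      intro v
      rw [hcnt]
      congr 2
      apply filter_congr
      intro z _
      rw [hBd]
      push Not
      rfl
    have hexp : ∑ v ∈ range (b ^ k), μ v * cnt v ≤ (T * H) * ε ^ 2 := by
      have e1 : ∀ v, μ v * cnt v = ∑ z ∈ range T ×ˢ Icc 1 H, (if Bd z v then μ v else 0) := by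
        intro v
        rw [hcnt, card_eq_sum_ones, Nat.cast_sum, sum_filter, mul_sum]
        apply sum_congr rfl
        intro z _
        split_ifs <;> simp
      simp_rw [e1]
      rw [sum_comm]
      refine (sum_le_sum key).trans (le_of_eq ?_)
      rw [sum_const, card_product, card_range, Nat.card_Icc, nsmul_eq_mul, Nat.add_sub_cancel]
      push_cast
      ring
    simp_rw [hset]
    rcases Nat.eq_zero_or_pos (T * H) with hH0 | hH0
    · refine le_trans (le_of_eq ?_) hε.le
      apply sum_eq_zero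
      intro v _
      rw [if_pos]
      have e2 : (range T ×ˢ Icc 1 H) = ∅ := by
        rw [← card_eq_zero, card_product, card_range, Nat.card_Icc, Nat.add_sub_cancel]
        exact hH0
      have e3 : (T : ℝ) * H = 0 := by exact_mod_cast hH0
      rw [hcnt, e2, e3]
      simp
    · have hHr : (0 : ℝ) < (T : ℝ) * H := by exact_mod_cast hH0
      have h6 : (∑ v ∈ range (b ^ k), (if cnt v ≤ ε * (T * H) then 0 else μ v)) * (ε * (T * H)) ≤ ε * (ε * (T * H)) := by
        calc (∑ v ∈ range (b ^ k), (if cnt v ≤ ε * (T * H) then 0 else μ v)) * (ε * (T * H)) ≤ ∑ v ∈ range (b ^ k), μ v * cnt v := by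
              rw [sum_mul]
              apply sum_le_sum
              intro v _
              have hpv := hμ.nonneg v
              split_ifs with hv
              · rw [zero_mul]
                exact mul_nonneg hpv (hcnt0 v)
              · exact mul_le_mul_of_nonneg_left (not_le.1 hv).le hpv
          _ ≤ (T * H) * ε ^ 2 := hexp
          _ = _ := by ring
      exact le_of_mul_le_mul_right h6 (by positivity)
  refine ⟨fun T K hK => main T K fun t ht => ⟨(hK t ht).1, (hK t ht).2.trans ?_⟩, fun R hR => ?_⟩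
  · apply mul_le_mul_of_nonneg_left _ (Nat.cast_nonneg _)
    exact pow_le_pow_right₀ (by linarith) (by omega)
  · -- multiples of `n = t + 1`
    obtain ⟨K, hK⟩ : ∃ K : ℕ → Finset ℕ, ∀ t, K t = (Icc 1 (x / (t + 1))).image (fun j => j * (t + 1)) := ⟨_, fun _ => rfl⟩
    have hinj : ∀ t : ℕ, Function.Injective (fun j : ℕ => j * (t + 1)) := fun t a b hab =>
      Nat.eq_of_mul_eq_mul_right (by omega) hab
    have hKc : ∀ t, (K t).card = x / (t + 1) := by
      intro t
      rw [hK, card_image_of_injective _ (hinj t), Nat.card_Icc, Nat.add_sub_cancel]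
    have hGood : ∀ t N, (Good (K t) N).card = (Mult (t + 1) x N).card := by
      intro t N
      unfold Good Mult
      rw [hK, filter_image, card_image_of_injective _ (hinj t)]
    have h5 := main R K (by
      intro t ht
      refine ⟨?_, ?_⟩
      · intro i hi
        rw [hK, mem_image] at hi
        obtain ⟨j, hj, rfl⟩ := hi
        rw [mem_Icc] at hj ⊢
        have g1 : j * (t + 1) ≤ x := (Nat.le_div_iff_mul_le (by omega)).1 hj.2
        exact ⟨Nat.mul_pos (by omega) (by omega), g1⟩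
      · rw [hKc]
        have hDk : t + 1 ≤ k ^ J := by omega
        have hDx : t + 1 ≤ x := hDk.trans hbigx
        have g2 : x ≤ 2 * (x / (t + 1) * (t + 1)) := by
          have e1 := Nat.div_add_mod x (t + 1)
          have e2 : x % (t + 1) < t + 1 := Nat.mod_lt _ (by omega)
          have e3 : 1 ≤ x / (t + 1) := (Nat.one_le_div_iff (by omega)).2 hDx
          have e4 : t + 1 ≤ x / (t + 1) * (t + 1) := Nat.le_mul_of_pos_left _ e3
          have e5 : (t + 1) * (x / (t + 1)) = x / (t + 1) * (t + 1) := by ring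
          omega
        have g3 : x ≤ x / (t + 1) * k ^ A₁ := by
          calc x ≤ 2 * (x / (t + 1) * (t + 1)) := g2
            _ ≤ 2 * (x / (t + 1) * k ^ J) := Nat.mul_le_mul_left 2 (Nat.mul_le_mul_left _ hDk)
            _ = x / (t + 1) * (k ^ J * 2) := by ring
            _ ≤ x / (t + 1) * (k ^ J * k) := Nat.mul_le_mul_left _ (Nat.mul_le_mul_left _ (by omega))
            _ = x / (t + 1) * k ^ (J + 1) := by rw [← pow_succ]
            _ ≤ _ := Nat.mul_le_mul_left _ (Nat.pow_le_pow_right (by omega) (by omega))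
        exact_mod_cast g3)
    refine le_trans (le_of_eq ?_) h5
    apply sum_congr rfl
    intro v _
    have e0 : ((Icc 1 R ×ˢ Icc 1 H).filter (fun z => ¬ (0 < Nv y z.2 c κ v →
            |((Mult z.1 x (Nv y z.2 c κ v)).card : ℝ) - (x / z.1 : ℕ) / (V y * (k * Real.log b))| ≤
              ε * ((x / z.1 : ℕ) / (V y * (k * Real.log b)))))).card =
        ((range R ×ˢ Icc 1 H).filter (fun z => ¬ (0 < Nv y z.2 c κ v →
            |((Good (K z.1) (Nv y z.2 c κ v)).card : ℝ) - (K z.1).card / (V y * (k * Real.log b))| ≤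
              ε * ((K z.1).card / (V y * (k * Real.log b)))))).card := by
      symm
      apply card_bij (fun z _ => ((z.1 + 1, z.2) : ℕ × ℕ))
      · rintro ⟨t, h⟩ hz
        rw [mem_filter, mem_product, mem_range, mem_Icc] at hz
        rw [mem_filter, mem_product, mem_Icc, mem_Icc]
        obtain ⟨⟨q1, q2⟩, q3⟩ := hz
        simp only at q1 q2 q3 ⊢
        refine ⟨⟨⟨by omega, by omega⟩, q2⟩, ?_⟩
        rw [hGood, hKc] at q3
        exact q3
      · rintro ⟨t, h⟩ _ ⟨t', h'⟩ _ heq
        simp only [Prod.mk.injEq] at heq ⊢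
        exact ⟨by omega, heq.2⟩
      · rintro ⟨n, h⟩ hz
        rw [mem_filter, mem_product, mem_Icc, mem_Icc] at hz
        obtain ⟨⟨⟨q0, q1⟩, q2⟩, q3⟩ := hz
        simp only at q0 q1 q2 q3
        obtain ⟨t, rfl⟩ : ∃ t, n = t + 1 := ⟨n - 1, by omega⟩
        refine ⟨(t, h), ?_, rfl⟩
        rw [mem_filter, mem_product, mem_range, mem_Icc]
        simp only
        refine ⟨⟨by omega, q2⟩, ?_⟩
        rw [hGood, hKc]
        exact q3
    rw [e0]

end Pool.Agent.Results.MP_be93de_nt.ExchangeableIndexSets
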