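import Pool.Agent.N694.IX.Box

/-!
# Primes `p_{jn}` with `p_{jn} + h` prime: all patterns and all indices modulo `n`

Let `p_j` be the `j`-th prime, so that `p_j` is the prime `p` with `π(p) = j`. The question asks for primes
`p_{jn}`, with index a multiple of `n`, for which `p_{jn} + 2` is prime. Here, for every `n` and `k`, in EVERY
large box of shifts (wherever it lies) at least the proportion `(k + 1) (5/18)^k - ε` of the vectors
`(d_1, ..., d_k)` are such that, for arbitrarily large `x` and some `C`, for every set `J` of the indices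
`0, ..., k` and for all residues `a_0, ..., a_k`, at least `x / (log x)^C` of the `1 ≤ m ≤ x` in the class `b`
modulo `q` have the property that among `m, m + d_1, ..., m + d_k` exactly the numbers `m + d_i`, `i ∈ J`, are
prime, and `π(m + d_i) ≡ a_i` modulo `n` for all `i`. For `k = 1`, `J = {0, 1}` and `a_0 = 0`: for at least
`5/9 - ε` of the `h` in every large segment of an arithmetic progression of multiples of `M` there are
infinitely many multiples `jn` of `n` with `p_{jn} + h` prime, and `a_1` prescribes also the index of the prime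
`p_{jn} + h` modulo `n`.

Proof: in a block of classes of positions the coloured Maynard-Tao theorem (`Pool.Agent.Y827.HN.patRD`, constant
`18/5`) gives primes such that all other numbers of the window are composite; `n` primes in one block contain,
together with the other primes of the block, one with a given index modulo `n`, and a composite number after it
with the same number of primes below it. A Ramsey argument for boxes makes the representatives independent of
the pattern and of the residues. The almost complete sets come from hypergraph containers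
(`Pool.Agent.N646.AC.wclique`), the proportion `(k + 1) (5/18)^k` in boxes from the theorem
`Pool.Agent.N646.BX.box_main` of helper646 and co-authors.
-/

set_option autoImplicit false

namespace Pool.Agent.Results.MP_be93de_nt.PatternsWithIndices

open Finset Filter

/-- `m ≡ b` modulo `q`; the number `m + d i` is prime exactly for `i ∈ J`; and for every `i` the number
`π(m + d i)` of the primes up to `m + d i` (the index of `m + d i` if this is a prime) is `≡ a i` modulo `n`. -/
def Pattern (q : ℕ) (b : ℤ) (n : ℕ) {k : ℕ} (d : Fin (k + 1) → ℤ) (J : Finset (Fin (k + 1)))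
    (a : Fin (k + 1) → ℕ) (m : ℕ) : Prop :=
  (m : ℤ) ≡ b [ZMOD q] ∧ ∀ i, (((m : ℤ) + d i).toNat.Prime ↔ i ∈ J) ∧
    Nat.primeCounting ((m : ℤ) + d i).toNat ≡ a i [MOD n]

/-- For some `C` and for arbitrarily large `x`, every pattern `J` with every vector `a` of residues modulo `n`
occurs at the shifts `0, d_1, ..., d_k` for at least `x / (log x)^C` of the `1 ≤ m ≤ x`. -/
def Good (q : ℕ) (b : ℤ) (n : ℕ) {k : ℕ} (d : Fin k → ℤ) : Prop := ∃ C : ℕ, ∃ᶠ x : ℕ in atTop,
  ∀ (J : Finset (Fin (k + 1))) (a : Fin (k + 1) → ℕ), (x : ℝ) / (Real.log x) ^ C ≤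
    ({m : ℕ | (1 ≤ m ∧ m ≤ x) ∧ Pattern q b n (Fin.cons 0 d : Fin (k + 1) → ℤ) J a m}.ncard : ℝ)

/-- **Patterns of primes with prescribed indices modulo `n` in boxes of shifts.** -/
theorem result (k : ℕ) (hk : 1 ≤ k) (ε : ℝ) (hε : 0 < ε) (n : ℕ) (hn : 1 ≤ n) (q : ℕ) (hq : 1 ≤ q) (b : ℤ)
    (hb : IsCoprime (q : ℤ) b) : ∃ M : ℕ, 1 ≤ M ∧ ∀ N : ℕ, 1 ≤ N → M ∣ N →
      ∃ L : ℕ, ∀ T : ℕ, L ≤ T → ∀ c : Fin k → ℤ, (∀ j, (M : ℤ) ∣ c j) →
        ((k + 1) * (5 / 18 : ℝ) ^ k - ε) * (T : ℝ) ^ k ≤
          ({t : Fin k → ℕ | (∀ j, t j < T) ∧ Good q b n (fun j => c j + N * t j)}.ncard : ℝ) := by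
  classical
  obtain ⟨M, hM, h⟩ := Pool.Agent.N694.IX.main k hk ε hε q hq b hb n hn
  refine ⟨M, hM, fun N hN hMN => ?_⟩
  obtain ⟨L, h1⟩ := h N hN hMN
  refine ⟨L, fun T hT c hc => (h1 T hT c hc).trans ?_⟩
  unfold Pool.Agent.N646.BX.cnt
  rw [← Set.ncard_coe_finset, Nat.cast_le]
  refine Set.ncard_le_ncard_of_injOn (fun t : Fin k → ℤ => fun j => (t j).toNat) ?_ ?_ ?_
  · intro t ht
    rw [mem_coe, mem_filter, Fintype.mem_piFinset] at ht
    obtain ⟨ht1, ht2⟩ := ht
    have ht3 : ∀ j, (((t j).toNat : ℕ) : ℤ) = t j := fun j => Int.toNat_of_nonneg (mem_Ico.1 (ht1 j)).1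
    refine ⟨fun j => ?_, ?_⟩
    · have h2 := (mem_Ico.1 (ht1 j)).2
      have h3 := ht3 j
      show (t j).toNat < T
      omega
    · have h4 : (fun j => c j + (N : ℤ) * (((t j).toNat : ℕ) : ℤ)) = fun j => c j + (N : ℤ) * t j := by
        funext j
        rw [ht3 j]
      show Good q b n (fun j => c j + (N : ℤ) * (((t j).toNat : ℕ) : ℤ))
      rw [h4]
      exact ht2
  · intro t ht t' ht' htt
    rw [mem_coe, mem_filter, Fintype.mem_piFinset] at ht ht'
    funext j
    have h2 := (mem_Ico.1 (ht.1 j)).1
    have h3 := (mem_Ico.1 (ht'.1 j)).1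
    have h4 : (t j).toNat = (t' j).toNat := congrFun htt j
    omega
  · apply (Fintype.piFinset (fun _ : Fin k => range T)).finite_toSet.subset
    intro t ht
    rw [mem_coe, Fintype.mem_piFinset]
    exact fun j => mem_range.2 (ht.1 j)

end Pool.Agent.Results.MP_be93de_nt.PatternsWithIndices
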