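import Mathlib
import Pool.Agent.N424.SMB.Main
import Pool.Agent.N740.HK.Shk
import Pool.Agent.N740.HK.Sch

/-!
# Twin primes with index in a prescribed progression, in all sequential random models of the primes

The integers are decided one after the other and the conditional probability of choosing `n + 1`,
given the decisions up to `n`, is asymptotic to `1 / log n`, almost surely.  Nothing else is assumed:
no independence and no rate of convergence.  The independent model of Cramér and the random sieve of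
Hawkins are examples.
-/

set_option autoImplicit false

open MeasureTheory Filter Set ProbabilityTheory
open scoped Topology

namespace Pool.Agent.Results.MP_be93de_nt.SequentialModels

variable {Ω : Type}

/-- `A n` is the event that `n` is chosen.  The events are adapted to the filtration `ℱ` and the
conditional probability of `A (n + 1)` given `ℱ n`, times `log n`, tends to `1` almost surely. -/
def SequentialModel [m : MeasurableSpace Ω] (μ : Measure Ω) (ℱ : Filtration ℕ m) (A : ℕ → Set Ω) : Prop :=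
  (∀ n, MeasurableSet[ℱ n] (A n)) ∧
  ∀ᵐ ω ∂μ, Tendsto (fun n : ℕ => (μ[(A (n + 1)).indicator (fun _ => (1 : ℝ)) | ℱ n]) ω * Real.log n) atTop (𝓝 1)

/-- The model of Cramér: independent events, `n` is chosen with probability `1 / log n` for `n ≥ 3`. -/
def CramerModel [MeasurableSpace Ω] (μ : Measure Ω) (A : ℕ → Set Ω) : Prop :=
  (∀ n, MeasurableSet (A n)) ∧ iIndepSet A μ ∧ ∀ n : ℕ, 3 ≤ n → μ (A n) = ENNReal.ofReal (1 / Real.log n)

open Classical in
/-- The random sieve of Hawkins: `2` is chosen, and given the decisions up to `n ≥ 2` the number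
`n + 1` is chosen with probability `∏ (1 - 1 / h)`, the product over the chosen `2 ≤ h ≤ n`. -/
def HawkinsSieve [m : MeasurableSpace Ω] (μ : Measure Ω) (ℱ : Filtration ℕ m) (A : ℕ → Set Ω) : Prop :=
  (∀ n, MeasurableSet[ℱ n] (A n)) ∧ A 2 = univ ∧
  ∀ n, 2 ≤ n → μ[(A (n + 1)).indicator (fun _ => (1 : ℝ)) | ℱ n] =ᵐ[μ]
    fun ω => ∏ h ∈ Finset.Icc 2 n, if ω ∈ A h then 1 - 1 / (h : ℝ) else 1

/-- the `m`-th chosen integer, `m ≥ 1` (the analogue of the `m`-th prime) -/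
noncomputable def P (S : Set ℕ) (m : ℕ) : ℕ := Nat.nth (· ∈ S) (m - 1)

open Pool.Agent.N740.HK Pool.Agent.R528.RM

lemma prod_inv (A : ℕ → Set Ω) (n : ℕ) (ω : Ω) [DecidablePred fun h => ω ∈ A h] :
    (∏ h ∈ Finset.Icc 2 n, if ω ∈ A h then 1 - 1 / (h : ℝ) else 1) = (Y A n ω)⁻¹ := by
  unfold Y
  rw [← Finset.prod_inv_distrib]
  refine Finset.prod_congr rfl fun h hh => ?_
  have h2 : (2 : ℝ) ≤ h := by exact_mod_cast (Finset.mem_Icc.1 hh).1
  by_cases hA : ω ∈ A h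
  · rw [if_pos hA, if_pos hA, inv_div]
    field_simp
  · rw [if_neg hA, if_neg hA, inv_one]

lemma log_ratio : Tendsto (fun n : ℕ => (Real.log ((n + 1 : ℕ) : ℝ))⁻¹ * Real.log n) atTop (𝓝 1) := by
  have h1 : Tendsto (fun n : ℕ => Real.log ((n : ℝ) + 1) - Real.log n) atTop (𝓝 0) := by
    have h1 : Tendsto (fun n : ℕ => 1 + (1 : ℝ) / n) atTop (𝓝 (1 + 0)) :=
      tendsto_const_nhds.add tendsto_one_div_atTop_nhds_zero_nat
    rw [add_zero] at h1
    have h2 := (Real.continuousAt_log (one_ne_zero)).tendsto.comp h1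
    rw [Real.log_one] at h2
    refine h2.congr' ?_
    filter_upwards [eventually_gt_atTop 0] with n hn
    have hn' : (0 : ℝ) < n := by exact_mod_cast hn
    show Real.log (1 + 1 / (n : ℝ)) = _
    rw [← Real.log_div (by positivity) hn'.ne']
    congr 1
    field_simp
  have h2 : Tendsto (fun n : ℕ => Real.log ((n : ℝ) + 1)) atTop atTop :=
    Real.tendsto_log_atTop.comp (tendsto_atTop_add_const_right _ _ tendsto_natCast_atTop_atTop)
  have h3 := h1.div_atTop h2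
  have h4 : Tendsto (fun n : ℕ => 1 - (Real.log ((n : ℝ) + 1) - Real.log n) / Real.log ((n : ℝ) + 1)) atTop (𝓝 (1 - 0)) :=
    tendsto_const_nhds.sub h3
  rw [sub_zero] at h4
  refine h4.congr' ?_
  filter_upwards [h2.eventually_gt_atTop 0] with n hn
  push_cast
  field_simp
  ring

theorem all_e {Ω : Type} [m : MeasurableSpace Ω] {μ : Measure Ω} [IsProbabilityMeasure μ] {A : ℕ → Set Ω}
    {ℱ : Filtration ℕ m} (hs : SequentialModel μ ℱ A) :
    ∀ᵐ ω ∂μ, ∀ h : ℕ, 1 ≤ h → ∀ j : ℕ, 1 ≤ j → ∀ e : ℝ, 0 < e → ∀ᶠ n : ℕ in atTop,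
      ∃ k : ℕ, 1 ≤ k ∧ (k : ℝ) ≤ (1 + e) * Real.log n ^ 2 ∧
        P {m | ω ∈ A m} (k ^ j * n) + h ∈ {m | ω ∈ A m} := by
  obtain ⟨hA, hd⟩ := hs
  have h1 : ∀ᵐ ω ∂μ, ∀ h j i : ℕ, ∀ᶠ n : ℕ in atTop,
      ∃ k : ℕ, 1 ≤ k ∧ (k : ℝ) ≤ (1 + 1 / ((i : ℝ) + 1)) * Real.log n ^ 2 ∧
        P {m | ω ∈ A m} (k ^ (j + 1) * n) + (h + 1) ∈ {m | ω ∈ A m} := by
    rw [ae_all_iff]; intro h
    rw [ae_all_iff]; intro j
    rw [ae_all_iff]; intro i
    exact Pool.Agent.N424.SMB.upper hA hd h (j + 1) (Nat.succ_pos j) (by positivity)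
      (by rw [div_le_one (by positivity)]; linarith [(Nat.cast_nonneg i : (0 : ℝ) ≤ i)])
  filter_upwards [h1] with ω hω h hh j hj e he
  obtain ⟨i, hi⟩ := exists_nat_one_div_lt he
  filter_upwards [hω (h - 1) (j - 1) i] with n hn
  obtain ⟨k, hk1, hk2, hk3⟩ := hn
  refine ⟨k, hk1, hk2.trans ?_, ?_⟩
  · apply mul_le_mul_of_nonneg_right _ (sq_nonneg _)
    linarith
  · rw [Nat.sub_add_cancel hh, Nat.sub_add_cancel hj] at hk3
    exact hk3

theorem log_small : ∀ᶠ n : ℕ in atTop, (1 + 1) * Real.log (n : ℝ) ^ 2 ≤ n ∧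
    (1 + 1) * Real.log (n : ℝ) ^ 2 < 3 * √(n : ℝ) + 6 := by
  have h1 := (isLittleO_log_rpow_atTop (show (0 : ℝ) < 1 / 4 by norm_num)).def (show (0 : ℝ) < 1 by norm_num)
  filter_upwards [tendsto_natCast_atTop_atTop.eventually h1, eventually_ge_atTop 16] with n h2 h3
  have hn : (16 : ℝ) ≤ n := by exact_mod_cast h3
  have hn0 : (0 : ℝ) ≤ n := by linarith
  rw [Real.norm_of_nonneg (Real.log_natCast_nonneg n), Real.norm_of_nonneg (by positivity), one_mul] at h2
  have h4 : Real.log (n : ℝ) ^ 2 ≤ √(n : ℝ) := by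
    calc Real.log (n : ℝ) ^ 2 ≤ ((n : ℝ) ^ (1 / 4 : ℝ)) ^ 2 :=
          pow_le_pow_left₀ (Real.log_natCast_nonneg n) h2 2
      _ = √(n : ℝ) := by
          rw [← Real.rpow_natCast, ← Real.rpow_mul hn0, Real.sqrt_eq_rpow]
          norm_num
  have h5 : (4 : ℝ) ≤ √(n : ℝ) := by
    apply Real.le_sqrt_of_sq_le
    linarith
  have h6 : √(n : ℝ) * √(n : ℝ) = n := Real.mul_self_sqrt hn0
  constructor
  · nlinarith
  · nlinarith

end Pool.Agent.Results.MP_be93de_nt.SequentialModels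

open Pool.Agent.Results.MP_be93de_nt.SequentialModels Pool.Agent.N740.HK Pool.Agent.R528.RM

/-- The random sieve of Hawkins is a sequential model, the model of Cramér is one for some filtration.
In every sequential model, almost surely: for all `h, j ≥ 1` and `e > 0` and all large `n` there is a
`k ≤ (1 + e) (log n) ^ 2` such that `P (k ^ j n) + h` is chosen; in particular the analogues of the two
assertions of the first question and of the assertion of the second question hold for all large `n`. -/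
theorem Pool.Agent.Results.MP_be93de_nt.SequentialModels.result
    {Ω : Type} [m : MeasurableSpace Ω] (μ : Measure Ω) [IsProbabilityMeasure μ] (A : ℕ → Set Ω) :
    (CramerModel μ A → ∃ ℱ : Filtration ℕ m, SequentialModel μ ℱ A) ∧
    ∀ ℱ : Filtration ℕ m,
    (HawkinsSieve μ ℱ A → SequentialModel μ ℱ A) ∧
    (SequentialModel μ ℱ A →
      ∀ᵐ ω ∂μ,
        (∀ h : ℕ, 1 ≤ h → ∀ j : ℕ, 1 ≤ j → ∀ e : ℝ, 0 < e → ∀ᶠ n : ℕ in atTop,
          ∃ k : ℕ, 1 ≤ k ∧ (k : ℝ) ≤ (1 + e) * Real.log n ^ 2 ∧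
            P {m | ω ∈ A m} (k ^ j * n) + h ∈ {m | ω ∈ A m}) ∧
        (∀ᶠ n : ℕ in atTop, ∃ k : ℕ, 1 ≤ k ∧ k ≤ n ∧ P {m | ω ∈ A m} (k * n) + 2 ∈ {m | ω ∈ A m}) ∧
        (∀ᶠ n : ℕ in atTop, ∃ k : ℕ, 1 ≤ k ∧ k ≤ n ∧ P {m | ω ∈ A m} (k ^ 2 * n) + 2 ∈ {m | ω ∈ A m}) ∧
        (∀ᶠ n : ℕ in atTop, ∃ k : ℕ, 1 ≤ k ∧ (k : ℝ) < 3 * √(n : ℝ) + 6 ∧
          P {m | ω ∈ A m} (k * n) + 2 ∈ {m | ω ∈ A m})) := by
  classical
  refine ⟨?_, fun ℱ => ⟨?_, ?_⟩⟩
  · rintro ⟨hA, hi, hp⟩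
    refine ⟨gen hA, gen_meas hA, ?_⟩
    have h1 : ∀ᵐ ω ∂μ, ∀ n, (μ[(A (n + 1)).indicator (fun _ => (1 : ℝ)) | gen hA n]) ω =
        (μ (A (n + 1))).toReal := ae_all_iff.2 fun n => dens_gen hA hi n
    filter_upwards [h1] with ω hω
    refine log_ratio.congr' ?_
    filter_upwards [eventually_ge_atTop 2] with n hn
    rw [hω, hp (n + 1) (by omega), ENNReal.toReal_ofReal, one_div]
    have : 0 ≤ Real.log ((n + 1 : ℕ) : ℝ) := Real.log_natCast_nonneg _
    positivity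
  · rintro ⟨h1, h2, h3⟩
    have hs : Pool.Agent.N740.HK.HS μ ℱ A := ⟨h1, h2, fun n hn => by
      filter_upwards [h3 n hn] with ω hω
      rw [← prod_inv]
      exact hω⟩
    exact ⟨h1, Pool.Agent.N740.HK.hawk_dens hs⟩
  · intro hs
    filter_upwards [all_e hs] with ω hω
    refine ⟨hω, ?_, ?_, ?_⟩
    · filter_upwards [hω 2 (by norm_num) 1 le_rfl 1 one_pos, log_small] with n h1 h2
      obtain ⟨k, hk1, hk2, hk3⟩ := h1
      rw [pow_one] at hk3
      exact ⟨k, hk1, by exact_mod_cast hk2.trans h2.1, hk3⟩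
    · filter_upwards [hω 2 (by norm_num) 2 (by norm_num) 1 one_pos, log_small] with n h1 h2
      obtain ⟨k, hk1, hk2, hk3⟩ := h1
      exact ⟨k, hk1, by exact_mod_cast hk2.trans h2.1, hk3⟩
    · filter_upwards [hω 2 (by norm_num) 1 le_rfl 1 one_pos, log_small] with n h1 h2
      obtain ⟨k, hk1, hk2, hk3⟩ := h1
      rw [pow_one] at hk3
      exact ⟨k, hk1, lt_of_le_of_lt hk2 h2.2, hk3⟩
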